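import Mathlib
import Pool.Agent.Lib.MP_eebf92_an.Main

open Set
open scoped ContDiff

namespace Pool.Agent.Results.MP_eebf92_an.NoConvexC2Approx

open Pool.Agent.Lib.MP_eebf92_an

/-- The quotient seminorm `f` bundled as a seminorm. -/
noncomputable def fsemi : Seminorm ℝ X :=
  Seminorm.of f
    (fun x y => by
      unfold f
      rw [Submodule.Quotient.mk_add]
      exact norm_add_le _ _)
    (fun c x => by
      unfold f
      rw [Submodule.Quotient.mk_smul, norm_smul])

lemma fsemi_apply (x : X) : fsemi x = f x := rfl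

/-- There is a Banach space `X` with an equivalent norm which is real-analytic (hence `C^∞`) away
from the origin, together with a `1`-Lipschitz seminorm `f` on `X` (a convex function), such that
no convex twice Fréchet differentiable function on `X` (in particular no convex function of class
`C^2`) stays within bounded distance of `f`. -/
theorem result :
    ∃ (X : Type) (_ : NormedAddCommGroup X) (_ : NormedSpace ℝ X) (_ : CompleteSpace X),
      (∃ N : X → ℝ,
        (∀ x y : X, N (x + y) ≤ N x + N y) ∧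
        (∀ (c : ℝ) (x : X), N (c • x) = |c| * N x) ∧
        (∃ a b : ℝ, 0 < a ∧ 0 < b ∧ ∀ x : X, a * ‖x‖ ≤ N x ∧ N x ≤ b * ‖x‖) ∧
        ContDiffOn ℝ ω N ({0}ᶜ : Set X)) ∧
      ∃ f : Seminorm ℝ X, ConvexOn ℝ Set.univ f ∧ LipschitzWith 1 f ∧
        ∀ (C : ℝ) (φ : X → ℝ), ConvexOn ℝ Set.univ φ → Differentiable ℝ φ →
          Differentiable ℝ (fderiv ℝ φ) → ¬ ∀ x : X, |f x - φ x| ≤ C := by
  refine ⟨X, inferInstance, inferInstance, inferInstance,
    ⟨N, N_add, N_smul, ⟨1, 2, one_pos, two_pos, N_bounds⟩, N_contDiffOn _⟩,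
    fsemi, fsemi.convexOn, f_lip, ?_⟩
  intro C φ₀ hφ1 hφ2 hφ3 hφ4
  -- rescale so that the distance is at most one
  have hC0 : 0 ≤ C := (abs_nonneg _).trans (hφ4 0)
  set s : ℝ := C + 1 with hs
  have hs0 : 0 < s := by linarith
  set φ : X → ℝ := fun x => s⁻¹ * φ₀ (s • x) with hφ
  have hconv : ConvexOn ℝ Set.univ φ := by
    have h1 : ConvexOn ℝ Set.univ (fun x => φ₀ (s • x)) :=
      hφ1.comp_linearMap (s • (LinearMap.id : X →ₗ[ℝ] X))
    exact h1.smul (inv_nonneg.2 hs0.le)
  have hd : Differentiable ℝ φ :=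
    (hφ2.comp (differentiable_id.const_smul s)).const_mul s⁻¹
  have hfd : fderiv ℝ φ = fun x => fderiv ℝ φ₀ (s • x) := by
    funext x
    have h1 : HasFDerivAt (fun x : X => s • x) (s • ContinuousLinearMap.id ℝ X) x :=
      (hasFDerivAt_id x).const_smul s
    have h2 := ((hφ2 (s • x)).hasFDerivAt.comp x h1).const_mul s⁻¹
    have h3 : fderiv ℝ φ x = s⁻¹ • (fderiv ℝ φ₀ (s • x)).comp (s • ContinuousLinearMap.id ℝ X) :=
      h2.fderiv
    rw [h3]
    refine ContinuousLinearMap.ext fun y => ?_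
    simp [hs0.ne']
  have hd2 : Differentiable ℝ (fderiv ℝ φ) := by
    rw [hfd]
    exact hφ3.comp (differentiable_id.const_smul s)
  have happ : ∀ x, |f x - φ x| ≤ 1 := by
    intro x
    have h2 := hφ4 (s • x)
    rw [fsemi_apply] at h2
    have h3 : f (s • x) = s * f x := by
      unfold f
      rw [Submodule.Quotient.mk_smul, norm_smul, Real.norm_eq_abs, abs_of_pos hs0]
    rw [h3] at h2
    have h4 : f x - φ x = s⁻¹ * (s * f x - φ₀ (s • x)) := by
      rw [hφ]
      field_simp
    rw [h4, abs_mul, abs_of_pos (inv_pos.2 hs0), inv_mul_le_iff₀ hs0]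
    linarith
  have hinv : ∀ y ∈ Y, ∀ x, φ (x + y) = φ x := by
    intro y hy x
    refine convex_const hconv (fun z => ⟨f z + 1, fun s => ?_⟩) x
    have h1 := (abs_le.1 (happ (z + s • y))).1
    rw [f_inv z (s • y) (Y.smul_mem s hy)] at h1
    linarith
  obtain ⟨v, hg, hv, hle⟩ := exists_far hd hd2 hinv (R := 8) (ε := 1 / 128) (by norm_num)
    (by norm_num)
  have h1 := f_lower hg hv
  have h2 := (abs_le.1 (happ (0, v))).2
  have h3 := (abs_le.1 (happ 0)).1
  rw [f_zero] at h3
  norm_num at h1 hle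
  linarith

end Pool.Agent.Results.MP_eebf92_an.NoConvexC2Approx
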